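import Pool.Agent.N840.FC.Ev2

/-!
# Even exponents over all number fields of odd degree

Let `K` be any number field of odd degree `m` and let `p` be a prime such that either `2 m + 3 ≤ p`
and `p` does not divide `B (p - 3), B (p - 5), ..., B (p - 2 m - 1)`, or `m (i + 1) (i + 2) + 3 ≤ p`,
where `i` is the index of irregularity of `p`. Suppose that `N P` is not `1` modulo `p` for the primes
`P` of `K` above two (for instance `2 ^ m ≤ p`). Then the first case of Fermat's Last Theorem holds
over `K` for all exponents divisible by `2 p`. There is no condition on the decomposition of `p` and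
of two, on the class group and units of `K`, and no condition of Wieferich. The same holds over the
fields of even degree `m` in which some prime above `p` has a local degree `e f` larger than `m / 2`
(for instance there is only one prime above `p`), if `p` is not `11` modulo `12`.

Proof. Let `x ^ (2 p) + y ^ (2 p) = z ^ (2 p)` in the first case. The ideal of `z - ζ y`, for a `p`-th
root of unity `ζ`, is prime to two and the product of the `p`-th power of an ideal and of a power of
the ideal of `z ^ 2 - y ^ 2`. By the Stickelberger relations for all Jacobi sums the polynomial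
`f (T) = N (z - T y)` is palindromic modulo `p`. If `m` is odd it follows that `f (- 1) = N (z + y)` is
divisible by `p`, which is impossible as `z + y` divides `x ^ (2 p)`. If `e f > m / 2` for a prime `v`
above `p`, then the residue `r` of `z / y` at `v` is conjugate to `1 / r`. In the same way, by the
symmetry of the equation in `x ^ 2, y ^ 2, - z ^ 2`, their residues are proportional to `1, ω, ω ^ 2`.
So `r` has order `12`, and some power of the Frobenius maps it to `1 / r`, hence `p = 11` modulo `12`.
-/

set_option autoImplicit false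

namespace Pool.Agent.Results.MP_ef6a16_nt.EvenExponentsAllDegrees

open NumberField IsDedekindDomain

/-- The even numbers `k` with `2 ≤ k ≤ p - 3` for which `p` divides the numerator of the Bernoulli
number with index `k`. Their number is the index of irregularity of `p`. -/
def Irregular (p : ℕ) : Finset ℕ :=
  (Finset.range p).filter fun k => Even k ∧ 2 ≤ k ∧ k + 3 ≤ p ∧ (p : ℤ) ∣ (bernoulli k).num

theorem result (K : Type) [Field K] [NumberField K] (m : ℕ) (hm : Module.finrank ℚ K = m)
    (p n : ℕ) (hp : p.Prime)
    (hB : (2 * m + 3 ≤ p ∧ ∀ k ∈ Irregular p, k + 2 * m + 1 < p) ∨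
      m * (((Irregular p).card + 1) * ((Irregular p).card + 2)) + 3 ≤ p)
    (h2 : ∀ P : Ideal (𝓞 K), P.IsPrime → (2 : 𝓞 K) ∈ P → ¬ p ∣ Nat.card (𝓞 K ⧸ P) - 1)
    (hK : -- the degree is odd
      Odd m ∨
      -- a prime above `p` whose local degree is larger than `m / 2`
      (p % 12 ≠ 11 ∧ ∃ (v : HeightOneSpectrum (𝓞 K)) (e f : ℕ),
        ((p : ℕ) : 𝓞 K) ∈ v.asIdeal ^ e ∧ Ideal.absNorm v.asIdeal = p ^ f ∧ m < 2 * (e * f)))
    (hn : 2 * p ∣ n)
    (x y z : K) (h : x ^ n + y ^ n = z ^ n) (hx : x ≠ 0) (hy : y ≠ 0) (hz : z ≠ 0) :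
    ∃ v : HeightOneSpectrum (𝓞 K), ((p : ℕ) : 𝓞 K) ∈ v.asIdeal ∧
      ¬ (v.valuation K x = v.valuation K y ∧ v.valuation K y = v.valuation K z) := by
  subst hm
  by_contra hcon
  push Not at hcon
  obtain ⟨k, rfl⟩ := hn
  have hF : (x ^ k) ^ (2 * p) + (y ^ k) ^ (2 * p) = (z ^ k) ^ (2 * p) := by
    rw [← pow_mul, ← pow_mul, ← pow_mul, mul_comm k (2 * p), h]
  refine Pool.Agent.N840.FC.mainEv hp hB h2 hK (pow_ne_zero k hx) (pow_ne_zero k hy)
    (pow_ne_zero k hz) hF fun v hv => ?_
  obtain ⟨h1, h2⟩ := hcon v hv
  rw [map_pow, map_pow, map_pow, h1, h2]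
  exact ⟨rfl, rfl⟩

end Pool.Agent.Results.MP_ef6a16_nt.EvenExponentsAllDegrees
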