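import Mathlib
import Pool.Agent.N741.HB.Thm4
import Pool.Agent.Y902.GN.FinB

/-!
# Fermat's equation over all number fields of bounded degree: points of exponential height

Let `P`, `κ`, `n`, `E` be natural numbers and `ε > 0`. There are `R` and `δ > 0` such that for all
`Y ≥ 1` and all integers `u i ≠ 0`, `v` of absolute value at most `exp (Y ^ δ)` the following holds.
We consider, over ALL number fields `K` of degree at most `κ` and for all exponents `d`, `r` between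
`R` and `Y ^ δ`, the equations

  `∑ i, u i * s i * x i ^ d = v * s₀ * c * z ^ r`,   `x i = ∏ j, y j ^ f i j`,   `c = ∏ j, y j ^ e j`,

with arbitrary elements `y 1, …, y P` of `K` of absolute height at most `Y`, arbitrary integral
exponents `f i j`, `e j` of absolute value at most `Y ^ δ`, arbitrary `s i`, `s₀` in `K` of absolute
height at most `Y ^ E` and arbitrary `z` in `K`, such that no partial sum on the left vanishes. So the
`x i` and `z` are of exponential height, and the coefficients are not bounded.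

* All solutions over all these fields give at most `Y ^ ε` points `(x 1 : … : x n)` of `P ^ (n - 1)(ℂ)`.
* All points `(a : b : c)`, `a b c ≠ 0`, on all Fermat curves `a ^ p + b ^ p + c ^ p = 0`,
  `R ≤ p ≤ Y ^ δ`, over all these fields, such that `a` and `b` are products of powers of `P` elements of
  height at most `Y`, with exponents of absolute value at most `Y ^ δ`, are at most `Y ^ ε` points of
  `P ^ 2 (ℂ)`.

Parts of the proof by helpers 20, 26, 27, 42, 54, 72, 130, 264, 273, 340, 368, 426, 438, 441, 459, 519,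
572, 603, 618, 713, 717, 776, 868, 966, 999 (see Pool/Agent/N741/HB/Thm.lean, Thm3.lean, Thm4.lean).
-/

set_option autoImplicit false

namespace Pool.Agent.Results.MP_ef6a16_nt.FewPointsAllFields

open Pool.Agent.Y902.GN Pool.Agent.N741.HK

/-- `x` is the image of a solution over a number field `K` of degree at most `κ` under an embedding
`σ : K → ℂ` (heights are relative to `K`, so `y` is of absolute height at most `Y` if its height is at
most `Y ^ [K : ℚ]`) -/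
def Sol (P κ E R : ℕ) (δ : ℝ) (Y : ℕ) {n : ℕ} (u : Fin n → ℤ) (v : ℤ) (x : Fin n → ℂ) : Prop :=
  ∃ (K : Type) (_ : Field K) (_ : NumberField K) (σ : K →+* ℂ) (y : Fin P → K) (s : Fin n → K)
    (s₀ z : K) (f : Fin n → Fin P → ℤ) (e : Fin P → ℤ) (d r : ℕ), Module.finrank ℚ K ≤ κ ∧
    R ≤ d ∧ (d : ℝ) ≤ (Y : ℝ) ^ δ ∧ R ≤ r ∧ (r : ℝ) ≤ (Y : ℝ) ^ δ ∧
    (∀ i j, |(f i j : ℝ)| ≤ (Y : ℝ) ^ δ) ∧ (∀ j, |(e j : ℝ)| ≤ (Y : ℝ) ^ δ) ∧
    (∀ j, y j ≠ 0 ∧ Height.mulHeight₁ (y j) ≤ (Y : ℝ) ^ Module.finrank ℚ K) ∧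
    (∀ i, s i ≠ 0 ∧ Height.mulHeight₁ (s i) ≤ ((Y : ℝ) ^ E) ^ Module.finrank ℚ K) ∧
    s₀ ≠ 0 ∧ Height.mulHeight₁ s₀ ≤ ((Y : ℝ) ^ E) ^ Module.finrank ℚ K ∧
    (∀ i, x i = σ (∏ j, y j ^ f i j)) ∧
    (∀ J : Finset (Fin n), J.Nonempty →
      ∑ i ∈ J, (u i : K) * (s i * (∏ j, y j ^ f i j) ^ d) ≠ 0) ∧
    ∑ i, (u i : K) * (s i * (∏ j, y j ^ f i j) ^ d) = (v : K) * s₀ * (∏ j, y j ^ e j) * z ^ r

/-- `(a, b, c)` is the image of a point of the Fermat curve of degree `p`, `R ≤ p ≤ Y ^ δ`, over a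
number field `K` of degree at most `κ`, with `c ≠ 0` and such that `a`, `b` are products of powers of
`P` elements of height at most `Y`, with exponents of absolute value at most `Y ^ δ` -/
def Fermat (P κ R : ℕ) (δ : ℝ) (Y : ℕ) (a b c : ℂ) : Prop :=
  ∃ (K : Type) (_ : Field K) (_ : NumberField K) (σ : K →+* ℂ) (y : Fin P → K) (f g : Fin P → ℤ)
    (z : K) (p : ℕ), Module.finrank ℚ K ≤ κ ∧ R ≤ p ∧ (p : ℝ) ≤ (Y : ℝ) ^ δ ∧
    (∀ j, |(f j : ℝ)| ≤ (Y : ℝ) ^ δ) ∧ (∀ j, |(g j : ℝ)| ≤ (Y : ℝ) ^ δ) ∧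
    (∀ j, y j ≠ 0 ∧ Height.mulHeight₁ (y j) ≤ (Y : ℝ) ^ Module.finrank ℚ K) ∧ z ≠ 0 ∧
    a = σ (∏ j, y j ^ f j) ∧ b = σ (∏ j, y j ^ g j) ∧ c = σ z ∧
    (∏ j, y j ^ f j) ^ p + (∏ j, y j ^ g j) ^ p + z ^ p = 0

theorem split {K : Type} [Field K] {P : ℕ} (y : Fin P → K) (f : Fin P → ℤ) :
    ∏ q : Fin (P + P), (Fin.append y (fun j => (y j)⁻¹) q) ^
      (Fin.append (fun j => (f j).toNat) (fun j => (-f j).toNat) : Fin (P + P) → ℕ) q =
      ∏ j, y j ^ f j := by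
  rw [Fin.prod_univ_add, ← Finset.prod_mul_distrib]
  refine Finset.prod_congr rfl fun j _ => ?_
  rw [Fin.append_left, Fin.append_left, Fin.append_right, Fin.append_right]
  rcases le_total 0 (f j) with h | h
  · have h1 : (-f j).toNat = 0 := Int.toNat_eq_zero.2 (by omega)
    rw [h1, pow_zero, mul_one, ← zpow_natCast, Int.toNat_of_nonneg h]
  · have h1 : (f j).toNat = 0 := Int.toNat_eq_zero.2 h
    rw [h1, pow_zero, one_mul, inv_pow, ← zpow_natCast, Int.toNat_of_nonneg (by omega), zpow_neg,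
      inv_inv]

theorem toNat_le {a : ℤ} {B : ℝ} (h : |(a : ℝ)| ≤ B) : ((a.toNat : ℕ) : ℝ) ≤ B ∧
    (((-a).toNat : ℕ) : ℝ) ≤ B := by
  have hB : 0 ≤ B := (abs_nonneg _).trans h
  rw [abs_le] at h
  constructor
  · rcases le_total 0 a with h1 | h1
    · have h2 : ((a.toNat : ℕ) : ℝ) = a := by exact_mod_cast Int.toNat_of_nonneg h1
      rw [h2]
      exact h.2
    · rw [Int.toNat_eq_zero.2 h1]
      simpa using hB
  · rcases le_total 0 a with h1 | h1
    · rw [Int.toNat_eq_zero.2 (by omega : -a ≤ 0)]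
      simpa using hB
    · have h2 : (((-a).toNat : ℕ) : ℝ) = ((-a : ℤ) : ℝ) := by
        exact_mod_cast Int.toNat_of_nonneg (by omega : 0 ≤ -a)
      rw [h2]
      push_cast
      linarith [h.1]

/-- **Few solutions over all number fields of bounded degree.** -/
theorem part1 (n P κ E : ℕ) (ε : ℝ) (hn : 1 ≤ n) (hε : 0 < ε) : ∃ (R : ℕ) (δ : ℝ), 0 < δ ∧
    ∀ Y : ℕ, 1 ≤ Y → ∀ (u : Fin n → ℤ) (v : ℤ),
    (∀ i, u i ≠ 0 ∧ ((|u i| : ℤ) : ℝ) ≤ Real.exp ((Y : ℝ) ^ δ)) →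
    ((|v| : ℤ) : ℝ) ≤ Real.exp ((Y : ℝ) ^ δ) →
    {W : Submodule ℂ (Fin n → ℂ) | ∃ x, Sol P κ E R δ Y u v x ∧
      W = Submodule.span ℂ {x}}.Finite ∧
    ({W : Submodule ℂ (Fin n → ℂ) | ∃ x, Sol P κ E R δ Y u v x ∧
      W = Submodule.span ℂ {x}}.ncard : ℝ) ≤ (Y : ℝ) ^ ε := by
  classical
  obtain ⟨C, hC⟩ : ∃ C : ℕ, C = (E + 1) * (κ + 1) := ⟨_, rfl⟩
  have hC0 : 0 < C := by rw [hC]; positivity
  have hCR : (0 : ℝ) < C := by exact_mod_cast hC0
  obtain ⟨R, δ, hδ, H⟩ := rk2 n (P + P) κ (ε / C) hn (by positivity)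
  refine ⟨R, δ, hδ, fun Y hY u v hu hv => fin_of_bound _ _ fun T hT => ?_⟩
  have hY1 : (1 : ℝ) ≤ (Y : ℝ) := by exact_mod_cast hY
  obtain ⟨Z, hZ⟩ : ∃ Z : ℕ, Z = Y ^ C := ⟨_, rfl⟩
  have hYZ : (Y : ℝ) ≤ (Z : ℝ) := by
    rw [hZ]
    push_cast
    exact le_self_pow₀ hY1 hC0.ne'
  have hδZ : (Y : ℝ) ^ δ ≤ (Z : ℝ) ^ δ := Real.rpow_le_rpow (by positivity) hYZ hδ.le
  have hexp : Real.exp ((Y : ℝ) ^ δ) ≤ Real.exp ((Z : ℝ) ^ δ) := Real.exp_le_exp.2 hδZ
  have hZε : (Z : ℝ) ^ (ε / C) = (Y : ℝ) ^ ε := by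
    rw [hZ]
    push_cast
    rw [← Real.rpow_natCast, ← Real.rpow_mul (by positivity)]
    congr 1
    field_simp
  have hZ1 : 1 ≤ Z := by rw [hZ]; exact Nat.one_le_pow _ _ hY
  choose! x hx hW using hT
  have key := H Z hZ1 u v (fun i => ⟨(hu i).1, (hu i).2.trans hexp⟩) (hv.trans hexp)
    (T.image x) (fun β hβ => ?_) (fun β hβ β' hβ' hh => ?_)
  · rw [hZε, Finset.card_image_of_injOn (fun W hWT W' hWT' hh => ?_)] at key
    · exact key
    · rw [hW W hWT, hW W' hWT', hh]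
  · obtain ⟨W, hWT, rfl⟩ := Finset.mem_image.1 hβ
    obtain ⟨K, _, _, σ, y, s, s₀, z, f, e, d, r, h1, h2, h3, h4, h5, h6, h7, h8, h9, h10, h11, h12,
      h13, h14⟩ := hx W hWT
    have hf0 : 1 ≤ Module.finrank ℚ K := Module.finrank_pos
    have hpw : (Y : ℝ) ^ Module.finrank ℚ K ≤ (Z : ℝ) := by
      rw [hZ]
      push_cast
      refine pow_le_pow_right₀ hY1 ?_
      rw [hC]
      nlinarith
    have hpw' : ((Y : ℝ) ^ E) ^ Module.finrank ℚ K ≤ (Z : ℝ) := by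
      rw [hZ, ← pow_mul]
      push_cast
      refine pow_le_pow_right₀ hY1 ?_
      rw [hC]
      nlinarith
    refine ⟨K, inferInstance, inferInstance, σ, Fin.append y (fun j => (y j)⁻¹), s, s₀, z,
      fun i => Fin.append (fun j => (f i j).toNat) (fun j => (-f i j).toNat),
      Fin.append (fun j => (e j).toNat) (fun j => (-e j).toNat), d, r, h1, h2, h3.trans hδZ, h4,
      h5.trans hδZ, ?_, ?_, ?_, fun i => ⟨(h9 i).1, (h9 i).2.trans hpw'⟩, h10, h11.trans hpw',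
      ?_, ?_, ?_⟩
    · intro i q
      refine Fin.addCases (fun j => ?_) (fun j => ?_) q
      · simp only [Fin.append_left]
        exact (toNat_le (h6 i j)).1.trans hδZ
      · simp only [Fin.append_right]
        exact (toNat_le (h6 i j)).2.trans hδZ
    · intro q
      refine Fin.addCases (fun j => ?_) (fun j => ?_) q
      · rw [Fin.append_left]
        exact (toNat_le (h7 j)).1.trans hδZ
      · rw [Fin.append_right]
        exact (toNat_le (h7 j)).2.trans hδZ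
    · intro q
      refine Fin.addCases (fun j => ?_) (fun j => ?_) q
      · rw [Fin.append_left]
        exact ⟨(h8 j).1, (h8 j).2.trans hpw⟩
      · rw [Fin.append_right]
        refine ⟨inv_ne_zero (h8 j).1, ?_⟩
        rw [Height.mulHeight₁_inv]
        exact (h8 j).2.trans hpw
    · intro i
      rw [h12 i, split]
    · intro J hJ
      have h := h13 J hJ
      intro h0
      apply h
      rw [← h0]
      refine Finset.sum_congr rfl fun i _ => ?_
      rw [split]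
    · rw [split, ← h14]
      refine Finset.sum_congr rfl fun i _ => ?_
      rw [split]
  · obtain ⟨W, hWT, rfl⟩ := Finset.mem_image.1 hβ
    obtain ⟨W', hWT', rfl⟩ := Finset.mem_image.1 hβ'
    have hne : ∀ W ∈ T, ∀ i, x W i ≠ 0 := by
      intro W hWT i
      obtain ⟨K, _, _, σ, y, s, s₀, z, f, e, d, r, h1, h2, h3, h4, h5, h6, h7, h8, h9, h10, h11,
        h12, h13, h14⟩ := hx W hWT
      rw [h12 i, map_ne_zero]
      exact Finset.prod_ne_zero_iff.2 fun j _ => zpow_ne_zero _ (h8 j).1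
    -- proportional
    have h1 : x W = (x W ⟨0, hn⟩ / x W' ⟨0, hn⟩) • x W' := by
      funext i
      rw [Pi.smul_apply, smul_eq_mul, div_mul_eq_mul_div, eq_div_iff (hne W' hWT' _)]
      exact hh i ⟨0, hn⟩ |>.trans (by ring)
    have h2 : W = W' := by
      rw [hW W hWT, hW W' hWT', h1]
      exact Submodule.span_singleton_smul_eq
        (IsUnit.mk0 _ (div_ne_zero (hne W hWT _) (hne W' hWT' _))) _
    rw [h2]

/-- the third coordinate is a root of bounded degree -/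
theorem fermat_third {P κ R : ℕ} {δ : ℝ} {Y : ℕ} {a b c : ℂ} (h : Fermat P κ R δ Y a b c) :
    ∃ p : ℕ, R ≤ p ∧ (p : ℝ) ≤ (Y : ℝ) ^ δ ∧ a ≠ 0 ∧ b ≠ 0 ∧ c ≠ 0 ∧
      IsIntegral ℚ (c / b) ∧ (minpoly ℚ (c / b)).natDegree ≤ κ ∧ a ^ p + b ^ p + c ^ p = 0 ∧
      ∀ (R' : ℕ) (δ' : ℝ), 1 ≤ Y → R' ≤ R → δ ≤ δ' →
        Sol P κ 0 R' δ' Y (fun _ : Fin 2 => (1 : ℤ)) (-1) ![a, b] := by
  obtain ⟨K, _, _, σ, y, f, g, z, p, h1, h2, h3, h4, h5, h6, h7, h8, h9, h10, h11⟩ := h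
  have hA : ∏ j, y j ^ f j ≠ 0 := Finset.prod_ne_zero_iff.2 fun j _ => zpow_ne_zero _ (h6 j).1
  have hB : ∏ j, y j ^ g j ≠ 0 := Finset.prod_ne_zero_iff.2 fun j _ => zpow_ne_zero _ (h6 j).1
  have hd := deg σ h1 (z / ∏ j, y j ^ g j)
  rw [map_div₀, ← h10, ← h9] at hd
  refine ⟨p, h2, h3, by rw [h8]; exact (map_ne_zero σ).2 hA, by rw [h9]; exact (map_ne_zero σ).2 hB,
    by rw [h10]; exact (map_ne_zero σ).2 h7, hd.1, hd.2, ?_, fun R' δ' hY hR hδ => ?_⟩
  · rw [h8, h9, h10, ← map_pow, ← map_pow, ← map_pow, ← map_add, ← map_add, h11, map_zero]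
  · have hY1 : (1 : ℝ) ≤ (Y : ℝ) := by exact_mod_cast hY
    have hYδ : (Y : ℝ) ^ δ ≤ (Y : ℝ) ^ δ' := Real.rpow_le_rpow_of_exponent_le hY1 hδ
    have hz0 : z ^ p ≠ 0 := pow_ne_zero _ h7
    refine ⟨K, inferInstance, inferInstance, σ, y, fun _ => 1, 1, z, ![f, g], fun _ => 0, p, p, h1,
      hR.trans h2, h3.trans hYδ, hR.trans h2, h3.trans hYδ, ?_, fun j => ?_, h6, fun i => ?_,
      one_ne_zero, ?_, ?_, ?_, ?_⟩
    · rw [Fin.forall_fin_two]
      exact ⟨fun j => (h4 j).trans hYδ, fun j => (h5 j).trans hYδ⟩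
    · simp only [Int.cast_zero, abs_zero]
      positivity
    · refine ⟨one_ne_zero, ?_⟩
      rw [Height.mulHeight₁_one]
      simp
    · rw [Height.mulHeight₁_one]
      simp
    · rw [Fin.forall_fin_two]
      exact ⟨h8, h9⟩
    · intro J hJ
      have h12 : ∀ i : Fin 2, ((1 : ℤ) : K) * (1 * (∏ j, y j ^ (![f, g] : Fin 2 → Fin P → ℤ) i j) ^ p)
          = ![(∏ j, y j ^ f j) ^ p, (∏ j, y j ^ g j) ^ p] i := by
        rw [Fin.forall_fin_two]
        constructor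
        · simp
        · simp
      rw [Finset.sum_congr rfl fun i _ => h12 i]
      have hJ' : J = {0} ∨ J = {1} ∨ J = {0, 1} := by
        revert J
        decide
      rcases hJ' with rfl | rfl | rfl
      · rw [Finset.sum_singleton]
        exact pow_ne_zero _ hA
      · rw [Finset.sum_singleton]
        exact pow_ne_zero _ hB
      · rw [Finset.sum_pair (by decide)]
        intro h0
        have h13 : (∏ j, y j ^ f j) ^ p + (∏ j, y j ^ g j) ^ p = 0 := h0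
        rw [h13, zero_add] at h11
        exact hz0 h11
    · rw [Fin.sum_univ_two]
      simp only [zpow_zero, Finset.prod_const_one]
      have h13 : (∏ j, y j ^ f j) ^ p + (∏ j, y j ^ g j) ^ p = - z ^ p := by
        linear_combination h11
      simp only [Matrix.cons_val_zero, Matrix.cons_val_one, Int.cast_one, one_mul, mul_one,
        Int.cast_neg, neg_mul]
      exact h13

/-- **Few points on all Fermat curves.** -/
theorem part2 (P κ : ℕ) (ε : ℝ) (hε : 0 < ε) : ∃ (R : ℕ) (δ : ℝ), 0 < δ ∧ ∀ Y : ℕ, 1 ≤ Y →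
    {W : Submodule ℂ (Fin 3 → ℂ) | ∃ a b c, Fermat P κ R δ Y a b c ∧
      W = Submodule.span ℂ {![a, b, c]}}.Finite ∧
    ({W : Submodule ℂ (Fin 3 → ℂ) | ∃ a b c, Fermat P κ R δ Y a b c ∧
      W = Submodule.span ℂ {![a, b, c]}}.ncard : ℝ) ≤ (Y : ℝ) ^ ε := by
  classical
  obtain ⟨NU, hNU⟩ : ∃ NU, NU = ((κ * κ + 1).factorial) ^ (κ * κ + 1) := ⟨_, rfl⟩
  obtain ⟨R1, δ1, hδ1, H⟩ := part1 2 P κ 0 (ε / 2) (by norm_num) (by positivity)
  refine ⟨max (max R1 (2 * NU)) 1, min δ1 (ε / 8), lt_min hδ1 (by positivity), fun Y hY =>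
    fin_of_bound _ _ fun T hT => ?_⟩
  obtain ⟨δ, hδ⟩ : ∃ δ, δ = min δ1 (ε / 8) := ⟨_, rfl⟩
  have hδ0 : 0 < δ := by rw [hδ]; exact lt_min hδ1 (by positivity)
  have hδε : δ ≤ ε / 8 := by rw [hδ]; exact min_le_right _ _
  have hY1 : (1 : ℝ) ≤ (Y : ℝ) := by exact_mod_cast hY
  have hY0 : (0 : ℝ) < (Y : ℝ) := by linarith
  rw [← hδ] at hT
  rcases Finset.eq_empty_or_nonempty T with h0 | ⟨W0, hW0⟩
  · rw [h0, Finset.card_empty, Nat.cast_zero]
    positivity
  choose! a b c hf hW using hT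
  choose! p hp1 hp2 ha hb hc hint hdeg heq hsol using fun W (hW : W ∈ T) => fermat_third (hf W hW)
  obtain ⟨hfin, hcard⟩ := H Y hY (fun _ => (1 : ℤ)) (-1) (fun i => ⟨one_ne_zero, by
    simp only [abs_one, Int.cast_one]
    exact Real.one_le_exp (by positivity)⟩) (by
    simp only [abs_neg, abs_one, Int.cast_one]
    exact Real.one_le_exp (by positivity))
  obtain ⟨L, hL⟩ : ∃ L, L = T.image fun W => Submodule.span ℂ {![a W, b W]} := ⟨_, rfl⟩
  have hLc : (L.card : ℝ) ≤ (Y : ℝ) ^ (ε / 2) := by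
    refine le_trans ?_ hcard
    have h1 : (L : Set (Submodule ℂ (Fin 2 → ℂ))) ⊆ {W : Submodule ℂ (Fin 2 → ℂ) | ∃ x,
        Sol P κ 0 R1 δ1 Y (fun _ => (1 : ℤ)) (-1) x ∧ W = Submodule.span ℂ {x}} := by
      intro V hV
      rw [hL, Finset.mem_coe] at hV
      obtain ⟨W, hWT, rfl⟩ := Finset.mem_image.1 hV
      exact ⟨_, hsol W hWT R1 δ1 hY ((le_max_left _ _).trans (le_max_left _ _))
        (by rw [hδ]; exact min_le_left _ _), rfl⟩
    have h2 := Set.ncard_le_ncard h1 hfin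
    rw [Set.ncard_coe_finset] at h2
    exact_mod_cast h2
  obtain ⟨M, hM⟩ : ∃ M : ℕ, M = ⌊(Y : ℝ) ^ δ⌋₊ + 1 := ⟨_, rfl⟩
  have hMY : (M : ℝ) ≤ 2 * (Y : ℝ) ^ δ := by
    have h1 : (1 : ℝ) ≤ (Y : ℝ) ^ δ := Real.one_le_rpow hY1 hδ0.le
    have h2 := Nat.floor_le (by positivity : (0 : ℝ) ≤ (Y : ℝ) ^ δ)
    rw [hM]
    push_cast
    linarith
  -- the fibres
  have hfib : T.card ≤ NU * (T.image fun W => (Submodule.span ℂ {![a W, b W]}, p W)).card := by
    refine Finset.card_le_mul_card_image _ _ fun V hV => ?_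
    obtain ⟨W1, hW1, rfl⟩ := Finset.mem_image.1 hV
    obtain ⟨G, hG⟩ : ∃ G, G = T.filter fun W =>
      (Submodule.span ℂ {![a W, b W]}, p W) = (Submodule.span ℂ {![a W1, b W1]}, p W1) :=
      ⟨_, rfl⟩
    rw [← hG]
    have hG1 : ∀ W ∈ G, W ∈ T ∧ p W = p W1 ∧ a W / b W = a W1 / b W1 := by
      intro W hWG
      rw [hG] at hWG
      obtain ⟨h1, h2⟩ := Finset.mem_filter.1 hWG
      obtain ⟨h3, h4⟩ := Prod.mk.inj h2
      refine ⟨h1, h4, ?_⟩
      have h5 : ![a W, b W] ∈ Submodule.span ℂ {![a W1, b W1]} := by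
        rw [← h3]
        exact Submodule.mem_span_singleton_self _
      obtain ⟨t, ht⟩ := Submodule.mem_span_singleton.1 h5
      have h6 := congrFun ht 0
      have h7 := congrFun ht 1
      simp only [Pi.smul_apply, smul_eq_mul, Matrix.cons_val_zero, Matrix.cons_val_one] at h6 h7
      have ht0 : t ≠ 0 := by
        rintro rfl
        rw [zero_mul] at h6
        exact ha W h1 h6.symm
      rw [← h6, ← h7, mul_div_mul_left _ _ ht0]
    have hc0 : (c W1 / b W1) ^ p W1 ≠ 0 := pow_ne_zero _ (div_ne_zero (hc W1 hW1) (hb W1 hW1))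
    have hp0 : 1 ≤ p W1 := (le_max_right _ _).trans (hp1 W1 hW1)
    have hroot : ∀ W ∈ G, (c W / b W) ^ p W1 = (c W1 / b W1) ^ p W1 := by
      intro W hWG
      obtain ⟨h1, h2, h3⟩ := hG1 W hWG
      have key : ∀ W ∈ T, p W = p W1 → (c W / b W) ^ p W1 = -((a W / b W) ^ p W1 + 1) := by
        intro W hWT hpp
        have h4 := heq W hWT
        rw [hpp] at h4
        have h5 : b W ^ p W1 ≠ 0 := pow_ne_zero _ (hb W hWT)
        rw [div_pow, div_pow]
        field_simp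
        linear_combination h4
      rw [key W h1 h2, key W1 hW1 rfl, h3]
    have h8 : G.card ≤ (G.image fun W => c W / b W).card := by
      refine (Finset.card_image_of_injOn fun W hWG W' hWG' hh => ?_).ge
      obtain ⟨h1, h2, h3⟩ := hG1 W hWG
      obtain ⟨h1', h2', h3'⟩ := hG1 W' hWG'
      have h4 : c W / b W = c W' / b W' := hh
      rw [hW W h1, hW W' h1']
      have h5 : (![a W, b W, c W] : Fin 3 → ℂ) = (b W / b W') • ![a W', b W', c W'] := by
        have e1 : a W = b W / b W' * a W' := by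
          have := h3.trans h3'.symm
          rw [div_eq_div_iff (hb W h1) (hb W' h1')] at this
          rw [div_mul_eq_mul_div, eq_div_iff (hb W' h1')]
          linear_combination this
        have e2 : b W = b W / b W' * b W' := by
          rw [div_mul_cancel₀ _ (hb W' h1')]
        have e3 : c W = b W / b W' * c W' := by
          rw [div_eq_div_iff (hb W h1) (hb W' h1')] at h4
          rw [div_mul_eq_mul_div, eq_div_iff (hb W' h1')]
          linear_combination h4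
        funext i
        fin_cases i
        · simpa using e1
        · simpa using e2
        · simpa using e3
      rw [h5]
      exact Submodule.span_singleton_smul_eq
        (IsUnit.mk0 _ (div_ne_zero (hb W h1) (hb W' h1'))) _
    refine h8.trans ?_
    rw [hNU]
    refine roots_card (p := p W1) (c := (c W1 / b W1) ^ p W1) hp0 hc0 _ fun t ht => ?_
    obtain ⟨W, hWG, rfl⟩ := Finset.mem_image.1 ht
    exact ⟨hint W (hG1 W hWG).1, hdeg W (hG1 W hWG).1, hroot W hWG⟩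
  have himg : (T.image fun W => (Submodule.span ℂ {![a W, b W]}, p W)).card ≤ L.card * M := by
    rw [← Finset.card_range M, ← Finset.card_product]
    refine Finset.card_le_card fun V hV => ?_
    obtain ⟨W, hWT, rfl⟩ := Finset.mem_image.1 hV
    rw [Finset.mem_product, hL]
    refine ⟨Finset.mem_image_of_mem _ hWT, ?_⟩
    rw [Finset.mem_range, hM]
    exact Nat.lt_succ_of_le (Nat.le_floor (hp2 W hWT))
  have h1 : (T.card : ℝ) ≤ NU * ((Y : ℝ) ^ (ε / 2) * (2 * (Y : ℝ) ^ δ)) := by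
    have h2 : (T.card : ℝ) ≤ NU * ((L.card : ℝ) * M) := by
      exact_mod_cast hfib.trans (Nat.mul_le_mul_left _ himg)
    refine h2.trans (mul_le_mul_of_nonneg_left ?_ (Nat.cast_nonneg _))
    exact mul_le_mul hLc hMY (Nat.cast_nonneg _) (by positivity)
  have h2 : (2 * NU : ℝ) ≤ (Y : ℝ) ^ δ := by
    have h3 : 2 * NU ≤ p W0 :=
      ((le_max_right _ _).trans (le_max_left _ _)).trans (hp1 W0 hW0)
    calc (2 * NU : ℝ) ≤ (p W0 : ℝ) := by exact_mod_cast h3
      _ ≤ (Y : ℝ) ^ δ := hp2 W0 hW0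
  calc (T.card : ℝ) ≤ NU * ((Y : ℝ) ^ (ε / 2) * (2 * (Y : ℝ) ^ δ)) := h1
    _ = (2 * NU) * ((Y : ℝ) ^ (ε / 2) * (Y : ℝ) ^ δ) := by ring
    _ ≤ (Y : ℝ) ^ δ * ((Y : ℝ) ^ (ε / 2) * (Y : ℝ) ^ δ) :=
        mul_le_mul_of_nonneg_right h2 (by positivity)
    _ = (Y : ℝ) ^ (δ + (ε / 2 + δ)) := by rw [← Real.rpow_add hY0, ← Real.rpow_add hY0]
    _ ≤ (Y : ℝ) ^ ε := Real.rpow_le_rpow_of_exponent_le hY1 (by linarith)

/-- **Fermat's equation over all number fields of bounded degree.** -/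
theorem result (P κ : ℕ) (ε : ℝ) (hε : 0 < ε) :
    -- few points on all Fermat curves over all number fields of degree at most `κ`
    (∃ (R : ℕ) (δ : ℝ), 0 < δ ∧ ∀ Y : ℕ, 1 ≤ Y →
      {W : Submodule ℂ (Fin 3 → ℂ) | ∃ a b c, Fermat P κ R δ Y a b c ∧
        W = Submodule.span ℂ {![a, b, c]}}.Finite ∧
      ({W : Submodule ℂ (Fin 3 → ℂ) | ∃ a b c, Fermat P κ R δ Y a b c ∧
        W = Submodule.span ℂ {![a, b, c]}}.ncard : ℝ) ≤ (Y : ℝ) ^ ε) ∧
    -- few points for equations in any number of variables, with coefficients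
    ∀ n E : ℕ, 1 ≤ n → ∃ (R : ℕ) (δ : ℝ), 0 < δ ∧
      ∀ Y : ℕ, 1 ≤ Y → ∀ (u : Fin n → ℤ) (v : ℤ),
      (∀ i, u i ≠ 0 ∧ ((|u i| : ℤ) : ℝ) ≤ Real.exp ((Y : ℝ) ^ δ)) →
      ((|v| : ℤ) : ℝ) ≤ Real.exp ((Y : ℝ) ^ δ) →
      {W : Submodule ℂ (Fin n → ℂ) | ∃ x, Sol P κ E R δ Y u v x ∧
        W = Submodule.span ℂ {x}}.Finite ∧
      ({W : Submodule ℂ (Fin n → ℂ) | ∃ x, Sol P κ E R δ Y u v x ∧
        W = Submodule.span ℂ {x}}.ncard : ℝ) ≤ (Y : ℝ) ^ ε :=
  ⟨part2 P κ ε hε, fun n E hn => part1 n P κ E ε hn hε⟩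

end Pool.Agent.Results.MP_ef6a16_nt.FewPointsAllFields
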