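import Pool.Agent.N840.FC.One

/-!
# The first case of Fermat's Last Theorem and the decomposition of `p` in the field

Let `K` be any number field of degree `m` and let `p` be a prime such that either `2 m + 3 ≤ p` and
`p` does not divide `B (p - 3), B (p - 5), ..., B (p - 2 m - 1)`, or `m (i + 1) (i + 2) + 3 ≤ p`,
where `i` is the index of irregularity of `p`. Let `p` divide `n`. For a prime `v` of `K` above `p`
let `f` be its residue degree and `e` its ramification index, and let `T v` be the condition that
`(N v - 1) / gcd (N v - 1, n)` is not divisible by six (that is, `- 1` and the primitive cube roots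
of unity are not both `n`-th powers modulo `v`). For instance `T v` holds if `p = 2` modulo `3` and
`f` is odd; if `p = 3` modulo `4`, `f` is odd and `n` is even; or if `f` is prime to three, `p` is
not `1` or `- 1` modulo `9` and `n` is divisible by three. The first case of Fermat's Last Theorem
holds over `K` for the exponent `n` in each of the following cases:

(a) some `v` has `e f > m / 2` (for instance `v` is the only prime above `p`), and `p = 1` modulo `3`
    or `T v` holds;
(b) some `v` has `e f > m / 3`, `f` is prime to three, and `T v` holds;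
(c) some `v` has `e f > m / 6`, `f` is prime to six, `T v` holds, and `2 ^ (p - 1)` is not `1` modulo
    `p ^ 2` or `2` is not an `(n / p)`-th power modulo `v`;
(d) `m` is prime to three and `T v` holds for all `v`;
(e) `m` is odd, and there are no three different primes above `p` such that `2` is an `(n / p)`-th
    power modulo all of them and `- 1` modulo two of them (for instance, there are at most two
    primes above `p`).

There is no condition on the class group, the units and the real places of `K`, the degree may be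
even, and there is no condition of Wieferich except in (c). As `1 + ω ^ p + ω ^ (2 p) = 0`, the
statement is false for the fields containing `ω` and exponents prime to six; these do not satisfy
any of the conditions. On the other hand (d) holds, for example, for all fields of degree prime to
three, the fields containing `ω` included, if `n` is divisible by three, `p` is not `1` or `- 1`
modulo `9` and the residue degrees of the primes above `p` are prime to three.

Proof. Let `X ^ p + Y ^ p + Z ^ p = 0` in the first case. The Stickelberger relations for all Jacobi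
sums show that the polynomial `N (X + T Y)` is palindromic modulo `p`. So the family of the residues
of the conjugates of `(X : Y : Z)`, which lie on the line `X + Y + Z = 0` over an algebraic closure of
the field with `p` elements, is invariant under the group `S₃` which permutes the coordinates. The
residues of the `e f` conjugates which belong to `v` are conjugate under the Frobenius, which
commutes with `S₃`. If `e f > m / 2` it follows that every element of `S₃` acts on one of them, `P`,
as a power of the Frobenius; as the Galois group of a finite field is commutative, `P` is fixed by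
the commutators, so `P = (1 : ω : ω ^ 2)`; and its coordinates are exchanged by the Frobenius. If
`e f > m / 3` (or `m / 6`) some element of order three (some element `≠ 1`) of `S₃` acts on `P` as a
power of the Frobenius, hence trivially if the degree `f` is prime to `3` (to `6`). If `m` is prime
to three there is a fixed point of the elements of order three, and if `m` is odd there is a fixed
point of the transpositions.
-/

set_option autoImplicit false

namespace Pool.Agent.Results.MP_ef6a16_nt.LargeLocalDegree

open NumberField IsDedekindDomain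

/-- The even numbers `k` with `2 ≤ k ≤ p - 3` for which `p` divides the numerator of the Bernoulli
number with index `k`. Their number is the index of irregularity of `p`. -/
def Irregular (p : ℕ) : Finset ℕ :=
  (Finset.range p).filter fun k => Even k ∧ 2 ≤ k ∧ k + 3 ≤ p ∧ (p : ℤ) ∣ (bernoulli k).num

theorem result (K : Type) [Field K] [NumberField K] (m : ℕ) (hm : Module.finrank ℚ K = m)
    (p n : ℕ) (hp : p.Prime)
    (hB : (2 * m + 3 ≤ p ∧ ∀ k ∈ Irregular p, k + 2 * m + 1 < p) ∨
      m * (((Irregular p).card + 1) * ((Irregular p).card + 2)) + 3 ≤ p)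
    (hn : p ∣ n)
    (hK : -- (a) a prime above `p` whose local degree is larger than `m / 2`
      (∃ (v : HeightOneSpectrum (𝓞 K)) (e f : ℕ), ((p : ℕ) : 𝓞 K) ∈ v.asIdeal ^ e ∧
        Ideal.absNorm v.asIdeal = p ^ f ∧ m < 2 * (e * f) ∧
        (p % 3 = 1 ∨ ¬ 6 ∣ (p ^ f - 1) / Nat.gcd (p ^ f - 1) n)) ∨
      -- (b) a prime above `p` whose local degree is larger than `m / 3`
      (∃ (v : HeightOneSpectrum (𝓞 K)) (e f : ℕ), ((p : ℕ) : 𝓞 K) ∈ v.asIdeal ^ e ∧
        Ideal.absNorm v.asIdeal = p ^ f ∧ m < 3 * (e * f) ∧ ¬ 3 ∣ f ∧
        ¬ 6 ∣ (p ^ f - 1) / Nat.gcd (p ^ f - 1) n) ∨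
      -- (c) a prime above `p` whose local degree is larger than `m / 6`
      (∃ (v : HeightOneSpectrum (𝓞 K)) (e f : ℕ), ((p : ℕ) : 𝓞 K) ∈ v.asIdeal ^ e ∧
        Ideal.absNorm v.asIdeal = p ^ f ∧ m < 6 * (e * f) ∧ ¬ 2 ∣ f ∧ ¬ 3 ∣ f ∧
        ¬ 6 ∣ (p ^ f - 1) / Nat.gcd (p ^ f - 1) n ∧
        (¬ p ^ 2 ∣ 2 ^ (p - 1) - 1 ∨ ∀ r : 𝓞 K, r ^ (n / p) - 2 ∉ v.asIdeal)) ∨
      -- (d) the degree is prime to three
      (¬ 3 ∣ m ∧ ∀ v : HeightOneSpectrum (𝓞 K), ((p : ℕ) : 𝓞 K) ∈ v.asIdeal →
        ¬ 6 ∣ (Ideal.absNorm v.asIdeal - 1) / Nat.gcd (Ideal.absNorm v.asIdeal - 1) n) ∨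
      -- (e) the degree is odd
      (Odd m ∧ ¬ ∃ v₁ v₂ v₃ : HeightOneSpectrum (𝓞 K), v₁ ≠ v₂ ∧ v₁ ≠ v₃ ∧ v₂ ≠ v₃ ∧
        ((p : ℕ) : 𝓞 K) ∈ v₁.asIdeal ∧ ((p : ℕ) : 𝓞 K) ∈ v₂.asIdeal ∧
        ((p : ℕ) : 𝓞 K) ∈ v₃.asIdeal ∧ ∃ r₁ r₂ r₃ s₂ s₃ : 𝓞 K,
          r₁ ^ (n / p) - 2 ∈ v₁.asIdeal ∧ r₂ ^ (n / p) - 2 ∈ v₂.asIdeal ∧
          r₃ ^ (n / p) - 2 ∈ v₃.asIdeal ∧ s₂ ^ (n / p) + 1 ∈ v₂.asIdeal ∧
          s₃ ^ (n / p) + 1 ∈ v₃.asIdeal))
    (x y z : K) (h : x ^ n + y ^ n = z ^ n) (hx : x ≠ 0) (hy : y ≠ 0) (hz : z ≠ 0) :
    ∃ v : HeightOneSpectrum (𝓞 K), ((p : ℕ) : 𝓞 K) ∈ v.asIdeal ∧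
      ¬ (v.valuation K x = v.valuation K y ∧ v.valuation K y = v.valuation K z) := by
  subst hm
  by_contra hcon
  push Not at hcon
  obtain ⟨k, rfl⟩ := hn
  exact Pool.Agent.N840.FC.main hp hB k hK hx hy hz h fun v hv => hcon v hv

end Pool.Agent.Results.MP_ef6a16_nt.LargeLocalDegree
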